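import Pool.Agent.Work.MP_76acb6_an.Final
import Pool.Agent.Work.MP_76acb6_an.PhiCalc
import Pool.Agent.Work.MP_76acb6_an.Fix
import Pool.Agent.Work.MP_76acb6_an.Piece
import Pool.Agent.Work.MP_76acb6_an.Trans
import Pool.Agent.Work.MP_76acb6_an.StepC
import Pool.Agent.Work.MP_76acb6_an.Tail
import Pool.Agent.Work.MP_76acb6_an.Energy
import Pool.Agent.Work.MP_76acb6_an.Run
import Pool.Agent.Work.MP_76acb6_an.Solve
import Pool.Agent.Work.MP_76acb6_an.Glue
import Pool.Agent.Work.MP_76acb6_an.Back
import Pool.Agent.Work.MP_76acb6_an.PKs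
import Pool.Agent.Work.MP_76acb6_an.CKs
import Pool.Agent.Work.MP_76acb6_an.DerF
import Pool.Agent.Work.MP_76acb6_an.U
import Pool.Agent.Work.MP_76acb6_an.ResF
import Pool.Agent.Work.MP_76acb6_an.ColsF
import Pool.Agent.Work.MP_76acb6_an.BB
import Pool.Agent.Work.MP_76acb6_an.BAF
import Pool.Agent.Work.MP_76acb6_an.Good
import Pool.Agent.Work.MP_76acb6_an.Match

/-!
# The pair (equilateral, collinear) is in the image of the limit shape map

For every `h > 0` and every primitive cube root of unity `z` there is a collision-free solution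
of the planar three body problem with unit masses, defined for all times, with
`x(t) = |t| a_h + o(t)` as `t → -∞` and `x(t) = t b_h + o(t)` as `t → +∞`.

The proof is computer assisted: a reference orbit and its linearised solutions are given by
integer polynomials on 46 + 40 pieces of the time axis; their residuals are checked in the kernel
(packed integer arithmetic), a shadowing argument gives true solutions near them, and a shooting
argument (contraction in the initial state) matches the limit velocities.
-/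

set_option autoImplicit false

namespace Pool.Agent.Results.MP_76acb6_an.EquilateralCollinear

open Filter Topology Asymptotics

/-- `x` is a solution, defined on all of `ℝ` and without collisions, of Newton's equations of the
planar three body problem with unit masses and gravitational constant 1. -/
def IsNewtonSolution (x : ℝ → Fin 3 → ℂ) : Prop :=
  (∀ t, ∀ i j, i ≠ j → x t i ≠ x t j) ∧
  ∃ v : ℝ → Fin 3 → ℂ, (∀ t i, HasDerivAt (fun s => x s i) (v t i) t) ∧
    ∀ t i, HasDerivAt (fun s => v s i)
      (∑ j ∈ Finset.univ.erase i, (x t j - x t i) / ((‖x t j - x t i‖ ^ 3 : ℝ) : ℂ)) t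

/-- The equilateral configuration `a_h = √(2h/3) (1, z, z²)`. -/
noncomputable def equilateral (h : ℝ) (z : ℂ) : Fin 3 → ℂ :=
  fun i => (Real.sqrt (2 * h / 3) : ℂ) * ![1, z, z ^ 2] i

/-- The collinear configuration `b_h = √h (-1, 0, 1)`. -/
noncomputable def collinear (h : ℝ) : Fin 3 → ℂ :=
  fun i => (Real.sqrt h : ℂ) * ![-1, 0, 1] i

theorem result (h : ℝ) (hh : 0 < h) (z : ℂ) (hz : IsPrimitiveRoot z 3) :
    ∃ x : ℝ → Fin 3 → ℂ, IsNewtonSolution x ∧
      ((fun t : ℝ => x t - |t| • equilateral h z) =o[atBot] fun t : ℝ => t) ∧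
      ((fun t : ℝ => x t - t • collinear h) =o[atTop] fun t : ℝ => t) := by
  have hPK := Work.MP_76acb6_an.claimPK
  have hCK := Work.MP_76acb6_an.claimCK hPK
  have hU := Work.MP_76acb6_an.claimU hPK hCK
  have hPhi := Work.MP_76acb6_an.claimPhi
  have hPiece := Work.MP_76acb6_an.claimPiece hPhi Work.MP_76acb6_an.claimFix
  have hTrans := Work.MP_76acb6_an.claimTrans
  have hGood := Work.MP_76acb6_an.claimGood hPiece Work.MP_76acb6_an.claimDer hU
    (Work.MP_76acb6_an.claimRes hPK hCK hU) (Work.MP_76acb6_an.claimCols hPK hCK hU)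
    (Work.MP_76acb6_an.claimB hPK hCK) (Work.MP_76acb6_an.claimBA hPK hCK)
  have hRun := Work.MP_76acb6_an.claimRun (Work.MP_76acb6_an.claimTail hPhi)
  have hSolve := Work.MP_76acb6_an.claimSolve Work.MP_76acb6_an.claimEnergy hTrans
  obtain ⟨y, hb, ha⟩ := Work.MP_76acb6_an.exists_state hGood
    (Work.MP_76acb6_an.claimStep hTrans) Work.MP_76acb6_an.claimMatch hRun hSolve
  have hz3 : z ^ 3 = 1 := hz.pow_eq_one
  have hz1 : z ≠ 1 := hz.ne_one (by norm_num)
  obtain ⟨x, hx, hxa, hxb⟩ := Work.MP_76acb6_an.claimBack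
    (Work.MP_76acb6_an.claimGlue Work.MP_76acb6_an.aX Work.MP_76acb6_an.bX y hb ha) h hh z hz3 hz1
  refine ⟨x, ⟨hx.1, hx.2⟩, ?_, ?_⟩
  · rw [isLittleO_pi]
    intro i
    refine (hxa i).congr_left fun t => ?_
    fin_cases i <;>
      simp [equilateral, Work.MP_76acb6_an.aShape, Complex.real_smul]
  · rw [isLittleO_pi]
    intro i
    refine (hxb i).congr_left fun t => ?_
    fin_cases i <;>
      simp [collinear, Work.MP_76acb6_an.bShape, Complex.real_smul]

end Pool.Agent.Results.MP_76acb6_an.EquilateralCollinear
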